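import Pool.Agent.TH629.DZ.Vol

/-!
# Counting the patterns
-/

set_option autoImplicit false

open Set MeasureTheory
open scoped BigOperators

namespace Pool.Agent.TH629.DZ

open Pool.Agent.Helper868.DHJ Pool.Agent.W201

/-- the families `x` of points of `S` with `|x_i - x_j - (c_i - c_j) σ| < w` -/
noncomputable def PS {k : ℕ} (S : Finset ℝ) (c : Fin (k + 1) → ℝ) (σ w : ℝ) :
    Finset (Fin (k + 1) → ℝ) := by
  classical
  exact (Fintype.piFinset (fun _ : Fin (k + 1) => S)).filter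
    (fun x => ∀ i j, |x i - x j - (c i - c j) * σ| < w)

lemma PS_vol {k : ℕ} {S : Finset ℝ} {c : Fin (k + 1) → ℝ} {σ w : ℝ} (hw : 0 < w) :
    (volume {t : ℝ | ∀ i, t + c i * σ ∈ UU (w / 2) S}).toReal ≤ w * (PS S c σ w).card := by
  classical
  have hsub : {t : ℝ | ∀ i, t + c i * σ ∈ UU (w / 2) S} ⊆
      ⋃ x ∈ PS S c σ w, Ioo (x 0 - c 0 * σ - w / 2) (x 0 - c 0 * σ + w / 2) := by
    intro t ht
    choose x hx hx1 using ht
    rw [Set.mem_iUnion₂]
    refine ⟨x, ?_, ?_⟩
    · unfold PS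
      rw [Finset.mem_filter, Fintype.mem_piFinset]
      refine ⟨hx, fun i j => ?_⟩
      have h1 := hx1 i
      have h2 := hx1 j
      have e : x i - x j - (c i - c j) * σ = (x i - (t + c i * σ)) - (x j - (t + c j * σ)) := by ring
      rw [e, abs_lt]
      constructor <;> linarith [h1.1, h1.2, h2.1, h2.2]
    · have h1 := hx1 0
      exact ⟨by linarith [h1.1], by linarith [h1.2]⟩
  have h2 : volume {t : ℝ | ∀ i, t + c i * σ ∈ UU (w / 2) S} ≤
      ENNReal.ofReal (w * (PS S c σ w).card) := by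
    refine (measure_mono hsub).trans ((measure_biUnion_finset_le _ _).trans ?_)
    simp_rw [Real.volume_Ioo]
    have h3 : ∀ x ∈ PS S c σ w, ENNReal.ofReal (x 0 - c 0 * σ + w / 2 - (x 0 - c 0 * σ - w / 2)) =
        ENNReal.ofReal w := by
      intro p _
      congr 1
      ring
    rw [Finset.sum_congr rfl h3, Finset.sum_const, nsmul_eq_mul, mul_comm w,
      ENNReal.ofReal_mul (Nat.cast_nonneg _), ENNReal.ofReal_natCast]
  exact ENNReal.toReal_le_of_le_ofReal (by positivity) h2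

/-- Patterns of the points of a finite set whose neighbourhood has positive density. -/
theorem core {k : ℕ} {S : Finset ℝ} {A H r p σ : ℝ} (hσ : 0 < σ) (hH : 0 < H) (hr : 0 < r)
    (hp : 0 < p) (hS : ∀ x ∈ S, A ≤ x ∧ x ≤ A + H)
    (hU : r * p * H ≤ (volume (UU (r * σ / 2) S)).toReal) (hrσ : r * σ ≤ H / 2) {n : ℕ}
    (hn : ∀ A : Set (Fin n → Fin (k + 1)), LineFree A → dens A < r * p / 4)
    (a : Fin n → Fin (k + 1) → ℝ) (ha : ∀ w : Fin n → Fin (k + 1), |∑ j, a j (w j)| * σ ≤ H / 4) :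
    ∃ I : Finset (Fin n), I.Nonempty ∧
      p / 4 / ((k : ℝ) + 2) ^ n * (H / σ) ≤
        ((PS S (fun i => ∑ j ∈ I, a j i) σ (r * σ)).card : ℝ) := by
  have hw : 0 < r * σ := mul_pos hr hσ
  have hrp : 0 < r * p := mul_pos hr hp
  obtain ⟨I, hI, h1⟩ := dhj_vol (β := Fin (k + 1)) (δ := r * p / 4) (by linarith) hn
    (UU_open (r * σ / 2) S).measurableSet
    (A := A - r * σ / 2) (B := A + H + r * σ / 2) (D := H / 4) (UU_sub hS) (by linarith)
    (by linarith) (fun j i => a j i * σ) (by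
      intro w
      rw [← Finset.sum_mul, abs_mul, abs_of_pos hσ]
      exact ha w) (by
      refine le_trans ?_ hU
      have h2 : A + H + r * σ / 2 - (A - r * σ / 2) + 2 * (H / 4) ≤ 2 * H := by linarith
      have h3 : 2 * (r * p / 4) * (A + H + r * σ / 2 - (A - r * σ / 2) + 2 * (H / 4)) ≤
        2 * (r * p / 4) * (2 * H) := mul_le_mul_of_nonneg_left h2 (by linarith)
      linarith)
  refine ⟨I, hI, ?_⟩
  have e1 : EI (UU (r * σ / 2) S) (fun j i => a j i * σ) I =
      {t : ℝ | ∀ i, t + (∑ j ∈ I, a j i) * σ ∈ UU (r * σ / 2) S} := by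
    unfold EI
    simp only [Finset.sum_mul]
  rw [e1] at h1
  have h2 := h1.trans (PS_vol (S := S) (c := fun i => ∑ j ∈ I, a j i) (σ := σ) hw)
  rw [Fintype.card_fin] at h2
  push_cast at h2
  have e2 : (k : ℝ) + 1 + 1 = k + 2 := by ring
  rw [e2] at h2
  have hq : 0 < ((k : ℝ) + 2) ^ n := by positivity
  have h3 : r * p / 4 * H / ((k : ℝ) + 2) ^ n ≤
      r * p / 4 * (A + H + r * σ / 2 - (A - r * σ / 2) + 2 * (H / 4)) / ((k : ℝ) + 2) ^ n := by
    apply div_le_div_of_nonneg_right _ hq.le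
    apply mul_le_mul_of_nonneg_left _ (by linarith)
    linarith
  have h4 := h3.trans h2
  refine le_of_mul_le_mul_left ?_ hw
  refine le_trans (le_of_eq ?_) h4
  field_simp

end Pool.Agent.TH629.DZ
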