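import Mathlib
import Pool.Agent.Helper868.DHJ
import Pool.Agent.TH300.ZS.Full

/-!
# The density Hales-Jewett theorem for the translates of a set of reals
-/

set_option autoImplicit false

open Set MeasureTheory
open scoped BigOperators

namespace Pool.Agent.TH629.DZ

open Pool.Agent.Helper868.DHJ

/-- the points `t` such that `t + ∑_{j ∈ I} a_j(b) ∈ U` for all `b` -/
def EI {β : Type} {n : ℕ} (U : Set ℝ) (a : Fin n → β → ℝ) (I : Finset (Fin n)) : Set ℝ :=
  {t : ℝ | ∀ b : β, t + ∑ j ∈ I, a j b ∈ U}

/-- the translate -/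
lemma tr_meas {U : Set ℝ} (hU : MeasurableSet U) (s : ℝ) : MeasurableSet {t : ℝ | t + s ∈ U} :=
  hU.preimage (measurable_id.add_const s)

lemma tr_vol (U : Set ℝ) (s : ℝ) : volume {t : ℝ | t + s ∈ U} = volume U := by
  have : {t : ℝ | t + s ∈ U} = (fun t => t + s) ⁻¹' U := rfl
  rw [this, measure_preimage_add_right]

lemma EI_meas {β : Type} [Countable β] {n : ℕ} {U : Set ℝ} (hU : MeasurableSet U) (a : Fin n → β → ℝ)
    (I : Finset (Fin n)) : MeasurableSet (EI U a I) := by
  have : EI U a I = ⋂ b : β, {t : ℝ | t + ∑ j ∈ I, a j b ∈ U} := by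
    ext t
    simp [EI]
  rw [this]
  exact MeasurableSet.iInter fun b => tr_meas hU _

/-- **The density Hales-Jewett theorem for translates.** -/
theorem dhj_vol {β : Type} [Fintype β] [Nonempty β] {δ : ℝ} (hδ : 0 < δ) {n : ℕ}
    (hn : ∀ A : Set (Fin n → β), LineFree A → dens A < δ)
    {U : Set ℝ} (hU : MeasurableSet U) {A B D : ℝ} (hUs : U ⊆ Ioo A B) (hAB : A < B) (hD : 0 ≤ D)
    (a : Fin n → β → ℝ) (ha : ∀ w : Fin n → β, |∑ j, a j (w j)| ≤ D)
    (hUv : 2 * δ * (B - A + 2 * D) ≤ (volume U).toReal) :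
    ∃ I : Finset (Fin n), I.Nonempty ∧
      δ * (B - A + 2 * D) / ((Fintype.card β : ℝ) + 1) ^ n ≤ (volume (EI U a I)).toReal := by
  classical
  by_contra hcon
  push Not at hcon
  set L : ℝ := B - A + 2 * D with hL
  have hL0 : 0 < L := by rw [hL]; linarith
  set J : Set ℝ := Ioo (A - D) (B + D) with hJ
  have hJf : volume J ≠ ⊤ := by rw [hJ, Real.volume_Ioo]; exact ENNReal.ofReal_ne_top
  have hJv : (volume J).toReal = L := by
    rw [hJ, Real.volume_Ioo, ENNReal.toReal_ofReal (by linarith)]
    rw [hL]; ring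
  set sh : (Fin n → β) → ℝ := fun w => ∑ j, a j (w j) with hsh
  set S : (Fin n → β) → Set ℝ := fun w => {t : ℝ | t + sh w ∈ U} with hS
  have hSm : ∀ w, MeasurableSet (S w) := fun w => tr_meas hU _
  have hSJ : ∀ w, S w ⊆ J := by
    intro w t ht
    have h1 := hUs ht
    have h2 := abs_le.mp (ha w)
    change A < t + ∑ j, a j (w j) ∧ t + ∑ j, a j (w j) < B at h1
    exact ⟨by linarith [h1.1, h2.2], by linarith [h1.2, h2.1]⟩
  set m : ℝ := (Fintype.card (Fin n → β) : ℝ) with hm
  have hm0 : 0 < m := by
    rw [hm]; exact_mod_cast Fintype.card_pos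
  set X : ℝ → ℝ := fun t => ∑ w : Fin n → β, (S w).indicator (fun _ => (1 : ℝ)) t with hX
  set Ac : ℝ → Set (Fin n → β) := fun t => {w | t ∈ S w} with hAc
  have hXc : ∀ t, X t = m * dens (Ac t) := by
    intro t
    unfold dens
    rw [av_eq_sum, hm]
    field_simp
    simp only [hX]
    apply Finset.sum_congr rfl
    intro w _
    by_cases h : t ∈ S w
    · rw [Set.indicator_of_mem h, ind_mem (by exact h)]
    · rw [Set.indicator_of_notMem h, ind_not_mem (by exact h)]
  -- the lines
  set LL : Finset (Fin n → Option β) := Finset.univ.filter (fun u => ∃ i, u i = none) with hLL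
  set fx : (Fin n → Option β) → ℝ := fun u => ∑ j, ((u j).elim 0 (fun b => a j b)) with hfx
  set II : (Fin n → Option β) → Finset (Fin n) := fun u => Finset.univ.filter (fun j => u j = none)
    with hII
  have hpt : ∀ (u : Fin n → Option β) (b : β), sh (pt u b) = fx u + ∑ j ∈ II u, a j b := by
    intro u b
    simp only [hsh, hfx, hII, Finset.sum_filter, ← Finset.sum_add_distrib]
    apply Finset.sum_congr rfl
    intro j _
    unfold pt
    cases u j <;> simp
  set G : Set ℝ := ⋃ u ∈ LL, {t : ℝ | t + fx u ∈ EI U a (II u)} with hG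
  have hEm : ∀ I, MeasurableSet (EI U a I) := fun I => EI_meas hU a I
  have hGm : MeasurableSet G :=
    Finset.measurableSet_biUnion _ fun u _ => tr_meas (hEm _) _
  have hptw : ∀ t, X t ≤ δ * m + m * G.indicator (fun _ => (1 : ℝ)) t := by
    intro t
    by_cases hc : X t ≤ δ * m
    · have : 0 ≤ G.indicator (fun _ => (1 : ℝ)) t := Set.indicator_nonneg (fun _ _ => zero_le_one) t
      nlinarith
    · push Not at hc
      rw [hXc] at hc
      have hd : δ ≤ dens (Ac t) := by
        have : m * δ ≤ m * dens (Ac t) := by linarith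
        exact le_of_mul_le_mul_left this hm0
      have hnl : ¬ LineFree (Ac t) := fun h => absurd (hn _ h) (not_lt.mpr hd)
      have htG : t ∈ G := by
        unfold LineFree at hnl
        push Not at hnl
        obtain ⟨u, hu, hb⟩ := hnl
        rw [hG, Set.mem_iUnion₂]
        refine ⟨u, by rw [hLL, Finset.mem_filter]; exact ⟨Finset.mem_univ _, hu⟩, fun b => ?_⟩
        have h1 : t + sh (pt u b) ∈ U := hb b
        rw [hpt, ← add_assoc] at h1
        exact h1
      rw [Set.indicator_of_mem htG, hXc]
      have h1 := dens_le_one (Ac t)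
      nlinarith
  -- integrate
  have hint1 : ∀ {E' : Set ℝ}, MeasurableSet E' →
      IntegrableOn (E'.indicator (fun _ => (1 : ℝ))) J := by
    intro E' hE'
    refine Integrable.indicator ?_ hE'
    exact integrableOn_const hJf
  have hI : ∀ {E' : Set ℝ}, MeasurableSet E' →
      ∫ t in J, E'.indicator (fun _ => (1 : ℝ)) t = (volume (E' ∩ J)).toReal := by
    intro E' hE'
    rw [integral_indicator hE', Measure.restrict_restrict hE']
    simp [Measure.real]
  have e1 : ∫ t in J, X t = m * (volume U).toReal := by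
    simp only [hX]
    rw [integral_finsetSum _ fun w _ => hint1 (hSm w)]
    have h0 : ∀ w ∈ (Finset.univ : Finset (Fin n → β)),
        ∫ t in J, (S w).indicator (fun _ => (1 : ℝ)) t = (volume U).toReal := by
      intro w _
      rw [hI (hSm w), inter_eq_left.mpr (hSJ w)]
      simp only [hS]
      rw [tr_vol]
    rw [Finset.sum_congr rfl h0]
    simp [hm]
  have hintX : IntegrableOn X J := by
    simp only [hX]
    exact integrable_finsetSum _ fun w _ => hint1 (hSm w)
  have h1 : ∫ t in J, X t ≤ ∫ t in J, (δ * m + m * G.indicator (fun _ => (1 : ℝ)) t) := by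
    refine setIntegral_mono hintX ?_ hptw
    exact (integrableOn_const hJf).add ((hint1 hGm).const_mul _)
  have e2 : ∫ t in J, (δ * m + m * G.indicator (fun _ => (1 : ℝ)) t) =
      δ * m * L + m * (volume (G ∩ J)).toReal := by
    have hc1 : IntegrableOn (fun _ : ℝ => δ * m) J := integrableOn_const hJf
    have hc2 : IntegrableOn (fun t => m * G.indicator (fun _ => (1 : ℝ)) t) J :=
      (hint1 hGm).const_mul _
    have hc3 : ∫ t in J, (δ * m) = δ * m * L := by
      rw [setIntegral_const, Measure.real, hJv, smul_eq_mul]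
      ring
    have hc4 : ∫ t in J, m * G.indicator (fun _ => (1 : ℝ)) t =
        m * (volume (G ∩ J)).toReal := by
      rw [integral_const_mul, hI hGm]
    rw [integral_add hc1 hc2, hc3, hc4]
  rw [e1, e2] at h1
  -- the measure of `G`
  obtain ⟨b₀⟩ := ‹Nonempty β›
  have hEv : ∀ I, volume (EI U a I) ≠ ⊤ := by
    intro I
    have h2 : EI U a I ⊆ {t : ℝ | t + ∑ j ∈ I, a j b₀ ∈ U} := fun t ht => ht b₀
    refine ne_top_of_le_ne_top ?_ (measure_mono h2)
    rw [tr_vol]
    refine ne_top_of_le_ne_top ?_ (measure_mono hUs)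
    rw [Real.volume_Ioo]; exact ENNReal.ofReal_ne_top
  have h2 : volume (G ∩ J) ≤ ∑ u ∈ LL, volume (EI U a (II u)) := by
    refine (measure_mono inter_subset_left).trans ((measure_biUnion_finset_le _ _).trans ?_)
    refine Finset.sum_le_sum fun u _ => ?_
    rw [tr_vol]
  have h3 : (volume (G ∩ J)).toReal ≤ ∑ u ∈ LL, (volume (EI U a (II u))).toReal := by
    have h5 := ENNReal.toReal_mono (ENNReal.sum_ne_top.mpr fun u _ => hEv _) h2
    rw [ENNReal.toReal_sum fun u _ => hEv _] at h5
    exact h5
  set q : ℝ := ((Fintype.card β : ℝ) + 1) ^ n with hq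
  have hq0 : 0 < q := by positivity
  have hcard : ((LL.card : ℕ) : ℝ) ≤ q := by
    have h4 : LL.card ≤ Fintype.card (Fin n → Option β) := Finset.card_le_univ _
    have h5 : Fintype.card (Fin n → Option β) = (Fintype.card β + 1) ^ n := by simp
    rw [hq]
    rw [h5] at h4
    exact_mod_cast h4
  have h6 : (volume (G ∩ J)).toReal < δ * L := by
    rcases LL.eq_empty_or_nonempty with hem | hne
    · rw [hem, Finset.sum_empty] at h3
      have : 0 < δ * L := by positivity
      linarith
    · have h4 : ∑ u ∈ LL, (volume (EI U a (II u))).toReal < ∑ u ∈ LL, δ * L / q := by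
        refine Finset.sum_lt_sum_of_nonempty hne fun u hu => ?_
        have h5 : (II u).Nonempty := by
          rw [hLL, Finset.mem_filter] at hu
          obtain ⟨i, hi⟩ := hu.2
          exact ⟨i, by rw [hII]; simp [hi]⟩
        exact hcon _ h5
      rw [Finset.sum_const, nsmul_eq_mul] at h4
      have h5 : (LL.card : ℝ) * (δ * L / q) ≤ δ * L := by
        have h7 : (LL.card : ℝ) * (δ * L / q) ≤ q * (δ * L / q) :=
          mul_le_mul_of_nonneg_right hcard (by positivity)
        have h8 : q * (δ * L / q) = δ * L := by field_simp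
        linarith
      linarith
  have h7 : m * (volume U).toReal < δ * m * L + m * (δ * L) := by
    have : m * (volume (G ∩ J)).toReal < m * (δ * L) := mul_lt_mul_of_pos_left h6 hm0
    linarith
  have h8 : m * (2 * δ * L) ≤ m * (volume U).toReal :=
    mul_le_mul_of_nonneg_left hUv hm0.le
  nlinarith

end Pool.Agent.TH629.DZ
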